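import Pool.Agent.helper90.IV.Spec

/-!
# MP_26dbae_co, row GL4: the edge coloured graph of a family of 4-walks
-/

set_option autoImplicit false

open scoped BigOperators

namespace Pool.Agent.helper10.IV

open Pool.Agent.helper23.TH Pool.Agent.KS Pool.Agent.IV

noncomputable section

open Classical

theorem GL4 : GL4_stmt := by
  intro V X _ A p q α β Δ F hPG hdeg hne hwalk hcl hends h2 h13
  obtain ⟨v0, hv0⟩ := hne
  -- classes
  have c1 : ∀ v ∈ F, α (p (v 1)) = 1 := fun v hv => (hcl v hv 1).1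
  have c3 : ∀ v ∈ F, α (p (v 3)) = 3 := fun v hv => (hcl v hv 3).1
  have ne13 : ∀ v ∈ F, ∀ v' ∈ F, v 1 ≠ v' 3 := by
    intro v hv v' hv' h
    have a := c1 v hv
    rw [h, c3 v' hv'] at a
    exact absurd a (by decide)
  have A01 : ∀ v ∈ F, A (v 0) (v 1) := fun v hv => hwalk v hv 0
  have A12 : ∀ v ∈ F, A (v 1) (v 2) := fun v hv => hwalk v hv 1
  have A23 : ∀ v ∈ F, A (v 2) (v 3) := fun v hv => hwalk v hv 2
  have A34 : ∀ v ∈ F, A (v 3) (v 4) := fun v hv => hwalk v hv 3
  have A32 : ∀ v ∈ F, A (v 3) (v 2) := fun v hv => hPG.symm _ _ (A23 v hv)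
  -- the vertex set
  set U : Finset V := (F.image fun v => v 1) ∪ (F.image fun v => v 3) with hU
  have m1 : ∀ v ∈ F, v 1 ∈ U := fun v hv => by
    rw [hU]; exact Finset.mem_union_left _ (Finset.mem_image_of_mem _ hv)
  have m3 : ∀ v ∈ F, v 3 ∈ U := fun v hv => by
    rw [hU]; exact Finset.mem_union_right _ (Finset.mem_image_of_mem _ hv)
  let A' : {v // v ∈ U} → {v // v ∈ U} → Prop := fun u w =>
    ∃ v ∈ F, (u.1 = v 1 ∧ w.1 = v 3) ∨ (u.1 = v 3 ∧ w.1 = v 1)
  let pq : Fin 2 → V → X := fun l x => if l = 0 then p x else q x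
  let lam : Fin 2 → {v // v ∈ U} → {v // v ∈ U} → X := fun l u w =>
    if h : A' u w then pq l ((Classical.choose h) 2) else p (v0 0)
  have lam_eq : ∀ l u w (h : A' u w), lam l u w = pq l ((Classical.choose h) 2) := by
    intro l u w h
    exact dif_pos h
  -- uniqueness of the walk
  have uniq : ∀ (u w : {v // v ∈ U}) (v v' : Fin 5 → V), v ∈ F → v' ∈ F →
      ((u.1 = v 1 ∧ w.1 = v 3) ∨ (u.1 = v 3 ∧ w.1 = v 1)) →
      ((u.1 = v' 1 ∧ w.1 = v' 3) ∨ (u.1 = v' 3 ∧ w.1 = v' 1)) → v = v' := by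
    intro u w v v' hv hv' h h'
    rcases h with ⟨ha, hb⟩ | ⟨ha, hb⟩ <;> rcases h' with ⟨ha', hb'⟩ | ⟨ha', hb'⟩
    · exact h13 v hv v' hv' (ha.symm.trans ha') (hb.symm.trans hb')
    · exact absurd (ha.symm.trans ha') (ne13 v hv v' hv')
    · exact absurd (ha'.symm.trans ha) (ne13 v' hv' v hv)
    · exact h13 v hv v' hv' (hb.symm.trans hb') (ha.symm.trans ha')
  have lam_of : ∀ l (u w : {v // v ∈ U}) (v : Fin 5 → V), v ∈ F →
      ((u.1 = v 1 ∧ w.1 = v 3) ∨ (u.1 = v 3 ∧ w.1 = v 1)) → lam l u w = pq l (v 2) := by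
    intro l u w v hv h
    have hA : A' u w := ⟨v, hv, h⟩
    rw [lam_eq l u w hA]
    have hs := Classical.choose_spec hA
    rw [uniq u w _ v hs.1 hv hs.2 h]
  have pq_inj : ∀ l c x y, A c x → A c y → pq l x = pq l y → x = y := by
    intro l c x y hx hy h
    by_cases hl : l = 0
    · have h' : p x = p y := by simpa [pq, hl] using h
      exact hPG.inj1 c x y hx hy h'
    · have h' : q x = q y := by simpa [pq, hl] using h
      exact hPG.inj2 c x y hx hy h'
  refine ⟨U, A', lam, ⟨v0 1, m1 v0 hv0⟩, ?_, ⟨?_, ?_, ?_, ?_⟩, ?_, ?_⟩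
  · -- the number of vertices
    have h1 : (F.image fun v => v 1).card ≤ Δ := by
      refine le_trans (Finset.card_le_card ?_) (hdeg (v0 0))
      intro x hx
      obtain ⟨v, hv, rfl⟩ := Finset.mem_image.1 hx
      refine Finset.mem_filter.2 ⟨Finset.mem_univ _, ?_⟩
      rw [(hends v0 hv0 v hv).1]
      exact A01 v hv
    have h3 : (F.image fun v => v 3).card ≤ Δ := by
      refine le_trans (Finset.card_le_card ?_) (hdeg (v0 4))
      intro x hx
      obtain ⟨v, hv, rfl⟩ := Finset.mem_image.1 hx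
      refine Finset.mem_filter.2 ⟨Finset.mem_univ _, ?_⟩
      rw [(hends v0 hv0 v hv).2]
      exact hPG.symm _ _ (A34 v hv)
    calc U.card ≤ (F.image fun v => v 1).card + (F.image fun v => v 3).card :=
          Finset.card_union_le _ _
      _ ≤ 2 * Δ := by omega
  · -- symmetric
    rintro a b ⟨v, hv, h⟩
    exact ⟨v, hv, h.symm.imp And.symm And.symm⟩
  · -- irreflexive
    rintro a ⟨v, hv, h⟩
    rcases h with ⟨ha, hb⟩ | ⟨ha, hb⟩
    · exact ne13 v hv v hv (ha.symm.trans hb)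
    · exact ne13 v hv v hv (hb.symm.trans ha)
  · -- symmetric colouring
    rintro l a b ⟨v, hv, h⟩
    rw [lam_of l a b v hv h, lam_of l b a v hv (h.symm.imp And.symm And.symm)]
  · -- proper colouring
    rintro l a b b' ⟨v, hv, h⟩ ⟨v', hv', h'⟩ hl
    rw [lam_of l a b v hv h, lam_of l a b' v' hv' h'] at hl
    apply Subtype.ext
    rcases h with ⟨ha, hb⟩ | ⟨ha, hb⟩ <;> rcases h' with ⟨ha', hb'⟩ | ⟨ha', hb'⟩
    · have e : v 1 = v' 1 := ha.symm.trans ha'
      have e2 : v 2 = v' 2 := by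
        refine pq_inj l (v 1) _ _ (A12 v hv) ?_ hl
        rw [e]
        exact A12 v' hv'
      rw [hb, hb', h2 v hv v' hv' e2]
    · exact absurd (ha.symm.trans ha') (ne13 v hv v' hv')
    · exact absurd (ha'.symm.trans ha) (ne13 v' hv' v hv)
    · have e : v 3 = v' 3 := ha.symm.trans ha'
      have e2 : v 2 = v' 2 := by
        refine pq_inj l (v 3) _ _ (A32 v hv) ?_ hl
        rw [e]
        exact A32 v' hv'
      rw [hb, hb', h2 v hv v' hv' e2]
  · -- the number of edges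
    have hsum : ∑ v, deg A' v =
        ((Finset.univ : Finset ({v // v ∈ U} × {v // v ∈ U})).filter fun x => A' x.1 x.2).card := by
      rw [Finset.card_filter, Fintype.sum_prod_type]
      refine Finset.sum_congr rfl fun v _ => ?_
      unfold deg
      rw [Finset.card_filter]
      refine Finset.sum_congr rfl fun y _ => ?_
      by_cases hA : A' v y
      · rw [if_pos hA, if_pos hA]
      · rw [if_neg hA, if_neg hA]
    rw [hsum]
    have hcard : (F ×ˢ (Finset.univ : Finset Bool)).card = 2 * F.card := by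
      rw [Finset.card_product, Finset.card_univ, Fintype.card_bool, mul_comm]
    rw [← hcard]
    let f : (Fin 5 → V) × Bool → {v // v ∈ U} × {v // v ∈ U} := fun x =>
      if hx : x.1 ∈ F then
        (if x.2 = true then (⟨x.1 1, m1 x.1 hx⟩, ⟨x.1 3, m3 x.1 hx⟩)
          else (⟨x.1 3, m3 x.1 hx⟩, ⟨x.1 1, m1 x.1 hx⟩))
      else (⟨v0 1, m1 v0 hv0⟩, ⟨v0 1, m1 v0 hv0⟩)
    have ft : ∀ v (hv : v ∈ F), f (v, true) = (⟨v 1, m1 v hv⟩, ⟨v 3, m3 v hv⟩) := by
      intro v hv
      simp [f, hv]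
    have ff : ∀ v (hv : v ∈ F), f (v, false) = (⟨v 3, m3 v hv⟩, ⟨v 1, m1 v hv⟩) := by
      intro v hv
      simp [f, hv]
    refine Finset.card_le_card_of_injOn f ?_ ?_
    · rintro ⟨v, b⟩ hx
      have hv : v ∈ F := (Finset.mem_product.1 hx).1
      refine Finset.mem_coe.2 (Finset.mem_filter.2 ⟨Finset.mem_univ _, ?_⟩)
      cases b
      · rw [ff v hv]
        exact ⟨v, hv, Or.inr ⟨rfl, rfl⟩⟩
      · rw [ft v hv]
        exact ⟨v, hv, Or.inl ⟨rfl, rfl⟩⟩
    · rintro ⟨v, b⟩ hx ⟨v', b'⟩ hx' h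
      have hv : v ∈ F := (Finset.mem_product.1 (Finset.mem_coe.1 hx)).1
      have hv' : v' ∈ F := (Finset.mem_product.1 (Finset.mem_coe.1 hx')).1
      cases b <;> cases b'
      · rw [ff v hv, ff v' hv', Prod.mk.injEq, Subtype.mk.injEq, Subtype.mk.injEq] at h
        rw [h13 v hv v' hv' h.2 h.1]
      · rw [ff v hv, ft v' hv', Prod.mk.injEq, Subtype.mk.injEq, Subtype.mk.injEq] at h
        exact absurd h.2 (ne13 v hv v' hv')
      · rw [ft v hv, ff v' hv', Prod.mk.injEq, Subtype.mk.injEq, Subtype.mk.injEq] at h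
        exact absurd h.1 (ne13 v hv v' hv')
      · rw [ft v hv, ft v' hv', Prod.mk.injEq, Subtype.mk.injEq, Subtype.mk.injEq] at h
        rw [h13 v hv v' hv' h.1 h.2]
  · -- the colours
    intro u w h
    have hs := Classical.choose_spec h
    refine ⟨Classical.choose h, hs.1, hs.2, ?_, ?_⟩
    · rw [lam_eq 0 u w h]
      simp [pq]
    · rw [lam_eq 1 u w h]
      simp [pq]

end

end Pool.Agent.helper10.IV
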